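import Pool.Agent.P8H49.WT.Add

/-!
# Cusp forms of weight `3/2`: the bound of the question near the values of additive functions and of their compositions

`Ψ(N)` is a set of at most `N^κ` characters modulo `N` for each level `N` (all characters for `κ = 1`), `θ > (1 + κ) / 2` and
`η ≥ 0`. The integer `n` is good (`BoundSq Ψ θ η n`) if for the squarefree part `r` of `n`, and for all `r` such that
`n = r t^2` (for example `r = n`), the bound `|a_f(r)| ≤ ‖f‖ N^θ r^(1/4 + η)` holds for ALL levels `N` divisible by `4`, all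
`χ ∈ Ψ(N)` and all cusp forms `f` of weight `3/2` in `S_{3/2}(N, χ)`, `‖f‖` the Petersson norm. So for each form `f` the
bound of the question with the exponent `1/4 + η` holds at the squarefree parts of the good integers.

Let `H = h_1 ∘ ⋯ ∘ h_k` where each `h_i` is dominated by the largest prime factor (`PD`): for `m ≥ 1` and the primes `p ≥ C`
larger than all prime powers dividing `m` the value `h (m p)` is at most `C p (1 + log (m p))^C`, and it determines `p`. For
example all additive functions with `h (q^j) ≤ C q^j` at the prime powers, injective at the large primes (the sum of the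
prime factors, with or without multiplicity), the largest prime factor and Kempner's function. Let `F(v)` be a function with
steps bounded below by a positive constant and of growth at most `v^D`, `D ≥ 1` (`Expanding`; for example `c v^D`), `0 ≤ μ` and
`D max(1 - 2 η, 1/2) + μ < 1`. For `F(v) = v` and `η ≤ 1/4` this is the condition `μ < 2 η`.

Then there are `c > 0` and `K` such that for all `X ≥ 1` and all `m ≤ X` but at most `K X exp (- c (log X)^(1 / (k + 1)))` ALL
integers `n` with `|n - F(H(m))| ≤ H(m)^μ` are good.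

The values `H(m)` are small compared with `m`, and for most `m` the value has very many preimages, so that such statements do
not follow from the statements on almost all integers. There are at most `C X^(max(1 - 2 η, 1/2) + ε)` integers `n ≤ X` which
are not good (see `NearMultiplicativeValues`); this is combined with a theorem of the starting library on the preimages of thin
sets under functions dominated by the largest prime factor.

Authors: helper1, helper16, helper26, helper49, helper65, helper76, helper94.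
-/

set_option autoImplicit false

namespace Pool.Agent.Results.MP_af11aa_nt.AdditiveValues

open Pool.Agent.P8H49.WT
open Pool.Agent.N375.AV (PD comp pd_additive pd_sopfr pd_largest pd_kempner)
open Pool.Agent.N733.TG (Expanding expanding_pow)

theorem result :
    (∀ κ θ : ℝ, 1 + κ < 2 * θ → ∀ Ψ : (N : ℕ) → Set (DirichletCharacter ℂ N),
      (∀ N : ℕ, 0 < N → ((Ψ N).ncard : ℝ) ≤ (N : ℝ) ^ κ) →
      ∀ (hs : List (ℕ → ℕ)) (F : ℕ → ℝ) (D η μ : ℝ), (∀ h ∈ hs, PD h) → Expanding F D → 0 ≤ η → 0 ≤ μ →
        D * max (1 - 2 * η) (1 / 2) + μ < 1 → ∃ c K : ℝ, 0 < c ∧ ∀ X : ℕ, 1 ≤ X →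
          ({m : ℕ | 1 ≤ m ∧ m ≤ X ∧ ∃ n : ℕ, 1 ≤ n ∧ |(n : ℝ) - F (comp hs m)| ≤ (comp hs m : ℝ) ^ μ ∧
            ¬ BoundSq Ψ θ η n}.ncard : ℝ) ≤ K * X * Real.exp (-(c * Real.log X ^ ((1 : ℝ) / (hs.length + 1))))) ∧
    (∀ N : ℕ, 0 < N → ((Set.univ : Set (DirichletCharacter ℂ N)).ncard : ℝ) ≤ (N : ℝ) ^ (1 : ℝ)) ∧
    ((∀ h : ℕ → ℕ, (∀ a b : ℕ, Nat.Coprime a b → h (a * b) = h a + h b) →
      (∃ C : ℕ, ∀ q j : ℕ, q.Prime → 1 ≤ j → h (q ^ j) ≤ C * q ^ j) →
      (∃ P : ℕ, ∀ p q : ℕ, p.Prime → q.Prime → P ≤ p → P ≤ q → h p = h q → p = q) → PD h) ∧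
      PD (fun n => n.primeFactorsList.sum) ∧ PD (fun n => n.primeFactors.sup id) ∧
      PD (fun n => sInf {k : ℕ | n ∣ k.factorial})) ∧
    ∀ c D : ℝ, 0 < c → 1 ≤ D → Expanding (fun v => c * (v : ℝ) ^ D) D := by
  have h0 : ∀ x : ℝ, 0 ≤ max x (1 / 2) := fun x => le_trans (by norm_num) (le_max_right _ _)
  refine ⟨fun κ θ h Ψ hΨ hs F D η μ hhs hF hη hμ hD => ?_, univ_card,
    ⟨fun h h1 h2 h3 => pd_additive h1 h2 h3, pd_sopfr, pd_largest, pd_kempner⟩, fun c D hc hD => expanding_pow hc hD⟩
  exact near_add (P := fun n : ℕ => BoundSq Ψ θ η n) (h0 _) (few_boundSq h hΨ hη) hs hhs hF hμ hD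

end Pool.Agent.Results.MP_af11aa_nt.AdditiveValues
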