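import Pool.Agent.P8H49.WT.Sq

/-!
# Cusp forms of weight `3/2`: the bound of the question near functions of the denominators of good approximations

`Ψ(N)` is a set of at most `N^κ` characters modulo `N` for each level `N` (all characters for `κ = 1`), `θ > (1 + κ) / 2` and
`η ≥ 0`. The integer `n` is good (`BoundSq Ψ θ η n`) if for the squarefree part `r` of `n`, and for all `r` such that
`n = r t^2` (for example `r = n`), the bound `|a_f(r)| ≤ ‖f‖ N^θ r^(1/4 + η)` holds for ALL levels `N` divisible by `4`, all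
`χ ∈ Ψ(N)` and all cusp forms `f` of weight `3/2` in `S_{3/2}(N, χ)`, `‖f‖` the Petersson norm. So for each form `f` the
bound of the question with the exponent `1/4 + η` holds at the squarefree parts of the good integers.

Let `F(v)` be a function with steps bounded below by a positive constant and of growth at most `v^D`, `D ≥ 1` (`Expanding`; for
example `F(v) = v` or `c v^D`), `0 ≤ μ ≤ 1`, `β ∈ ℝ^M`, `τ > 0` and `s = D max(1 - 2 η, 1/2) + μ`. For all `α ∈ ℝ^M` outside of
a set of Hausdorff dimension at most `(M + s) / (1 + τ)` and all `c`: for all but finitely many solutions `q` of the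
inequalities `‖q α_j - β_j‖ ≤ c q^(-τ)`, `j ≤ M`, ALL integers `n` with `|n - F(q)| ≤ q^μ` are good.

For `τ = 1 / M`, `β = 0` these `q` include the denominators of all best simultaneous approximations (for `M = 1` all
denominators of the convergents of `α`), a set with `O(log X)` elements up to `X`; the bound for the dimension is
less than `M` if `s < 1`, so in this case the statement holds for almost all `α`. For `F(v) = v` every `η > 0` is
admissible here, with `μ < 2 η ≤ 1/2`. (The bound of Duke and Iwaniec for each squarefree `r` is the case `η > 3/14`.)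

The number of the integers `n ≤ X` which are not good is at most `C X^(max(1 - 2 η, 1/2) + ε)` (see
`NearMultiplicativeValues`); this is combined with a covering theorem of the starting library.

Authors: helper1, helper16, helper26, helper49, helper65, helper76, helper94.
-/

set_option autoImplicit false

namespace Pool.Agent.Results.MP_af11aa_nt.GoodApproximations

open Pool.Agent.P8H49.WT
open Pool.Agent.N671.DA (Solves Expanding expanding_pow)

theorem result :
    (∀ κ θ : ℝ, 1 + κ < 2 * θ → ∀ Ψ : (N : ℕ) → Set (DirichletCharacter ℂ N),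
      (∀ N : ℕ, 0 < N → ((Ψ N).ncard : ℝ) ≤ (N : ℝ) ^ κ) →
      ∀ (F : ℕ → ℝ) (D η μ : ℝ), Expanding F D → 0 ≤ η → 0 ≤ μ → μ ≤ 1 →
        ∀ (M : ℕ) (β : Fin M → ℝ) (τ : ℝ), 0 < τ →
          ∃ E : Set (Fin M → ℝ), dimH E ≤ ENNReal.ofReal ((M + (D * max (1 - 2 * η) (1 / 2) + μ)) / (1 + τ)) ∧
            ∀ α, α ∉ E → ∀ c : ℝ, ∃ Q : ℕ, ∀ q : ℕ, Q ≤ q → Solves α β q (c * (q : ℝ) ^ (-τ)) →
              ∀ n : ℕ, 1 ≤ n → |(n : ℝ) - F q| ≤ (q : ℝ) ^ μ → BoundSq Ψ θ η n) ∧
    (∀ N : ℕ, 0 < N → ((Set.univ : Set (DirichletCharacter ℂ N)).ncard : ℝ) ≤ (N : ℝ) ^ (1 : ℝ)) ∧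
    ∀ c D : ℝ, 0 < c → 1 ≤ D → Expanding (fun v => c * (v : ℝ) ^ D) D := by
  have h0 : ∀ x : ℝ, 0 ≤ max x (1 / 2) := fun x => le_trans (by norm_num) (le_max_right _ _)
  refine ⟨fun κ θ h Ψ hΨ F D η μ hF hη hμ hμ1 M β τ hτ => ?_, univ_card, fun c D hc hD => expanding_pow hc hD⟩
  exact near_approx (P := fun n : ℕ => BoundSq Ψ θ η n) (h0 _) (few_boundSq h hΨ hη) hF hμ hμ1 β hτ

end Pool.Agent.Results.MP_af11aa_nt.GoodApproximations
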