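import Pool.Agent.P8H49.WT.Sq

/-!
# Cusp forms of weight `3/2`: the bound of the question near the values of multiplicative functions and along the orbits of the
# function of Euler

`Ψ(N)` is a set of at most `N^κ` characters modulo `N` for each level `N` (all characters for `κ = 1`, `Ψ(N) = {χ_N}` for
`κ = 0`), `θ > (1 + κ) / 2` and `η ≥ 0`. The integer `n` is good (`BoundSq Ψ θ η n`) if for the squarefree part `r` of `n`, and
for all `r` such that `n = r t^2` (for example `r = n`), the bound `|a_f(r)| ≤ ‖f‖ N^θ r^(1/4 + η)` holds for ALL levels `N`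
divisible by `4`, all `χ ∈ Ψ(N)` and all cusp forms `f` of weight `3/2` in `S_{3/2}(N, χ)`, `‖f‖` the Petersson norm. So for
each form `f` the bound of the question with the exponent `1/4 + η` holds at the squarefree parts of the good integers.

Let `g` be a multiplicative function with positive integral values, of polynomial growth, with `g(p) ≤ M p` at the primes and
injective on the large primes (`LM`; for example the function `φ` of Euler or the sum of the divisors), and let `F(v)` be a function
with steps bounded below by a positive constant and of growth at most `v^D`, `D ≥ 1` (`Expanding`; for example `F(v) = v` or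
`c v^D`). Let `0 ≤ μ` and `D max(1 - 2 η, 1/2) + μ < 1`. For `F(v) = v` and `η ≤ 1/4` this is the condition `μ < 2 η`, so every
`η > 0` is admissible. (The bound of Duke and Iwaniec for each squarefree `r` is the case `η > 3/14`.)

(1) For every `A` and all but `X / (log X)^A` integers `m ≤ X` ALL integers `n` with `|n - F(g(m))| ≤ g(m)^μ` are good.

(2) There is a function `K(m)` which tends to infinity such that for almost all `m`, for all `k ≤ K(m)`, ALL integers `n` with
`|n - F(g(φ_k(m)))| ≤ g(φ_k(m))^μ` are good, `φ_k` the `k`-th iterate of the function of Euler.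

The values of `φ` and of the other functions `g`, and those of `F ∘ g`, have density zero, so such statements do not follow from
statements on almost all integers. The number of the integers `r ≤ X` for which the bound fails is at most
`C X^(max(1 - 2 η, 0)) (1 + log X)^2` (`UniformInLevel`), and so there are at most `C X^(max(1 - 2 η, 1/2) + ε)` integers `n ≤ X`
which are not good; this is combined with the theorems of the starting library on the fibres of multiplicative functions and on
the orbits of `φ`.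

Authors: helper1, helper16, helper26, helper49, helper65, helper76, helper94.
-/

set_option autoImplicit false

open Filter

namespace Pool.Agent.Results.MP_af11aa_nt.NearMultiplicativeValues

open Pool.Agent.P8H49.WT
open Pool.Agent.N733.TG (LM Expanding lm_totient lm_sigma expanding_pow)

theorem result :
    (∀ κ θ : ℝ, 1 + κ < 2 * θ → ∀ Ψ : (N : ℕ) → Set (DirichletCharacter ℂ N),
      (∀ N : ℕ, 0 < N → ((Ψ N).ncard : ℝ) ≤ (N : ℝ) ^ κ) →
      ∀ (g : ℕ → ℕ) (F : ℕ → ℝ) (D η μ : ℝ), LM g → Expanding F D → 0 ≤ η → 0 ≤ μ →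
        D * max (1 - 2 * η) (1 / 2) + μ < 1 →
        -- (1)
        (∀ A : ℕ, ∃ X₀ : ℕ, ∀ X : ℕ, X₀ ≤ X →
          ({m : ℕ | 1 ≤ m ∧ m ≤ X ∧ ∃ n : ℕ, 1 ≤ n ∧ |(n : ℝ) - F (g m)| ≤ (g m : ℝ) ^ μ ∧
            ¬ BoundSq Ψ θ η n}.ncard : ℝ) ≤ X / Real.log X ^ A) ∧
        -- (2)
        ∃ K : ℕ → ℕ, Tendsto K atTop atTop ∧ ∀ ε : ℝ, 0 < ε → ∃ X₀ : ℕ, ∀ X : ℕ, X₀ ≤ X →
          ({m : ℕ | 1 ≤ m ∧ m ≤ X ∧ ∃ k ≤ K m, ∃ n : ℕ, 1 ≤ n ∧
            |(n : ℝ) - F (g (Nat.totient^[k] m))| ≤ (g (Nat.totient^[k] m) : ℝ) ^ μ ∧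
              ¬ BoundSq Ψ θ η n}.ncard : ℝ) ≤ ε * X) ∧
    (∀ N : ℕ, 0 < N → ((Set.univ : Set (DirichletCharacter ℂ N)).ncard : ℝ) ≤ (N : ℝ) ^ (1 : ℝ)) ∧
    LM Nat.totient ∧ LM (fun m => ∑ d ∈ m.divisors, d) ∧
    ∀ c D : ℝ, 0 < c → 1 ≤ D → Expanding (fun v => c * (v : ℝ) ^ D) D := by
  have h0 : ∀ x : ℝ, 0 ≤ max x (1 / 2) := fun x => le_trans (by norm_num) (le_max_right _ _)
  refine ⟨fun κ θ h Ψ hΨ g F D η μ hg hF hη hμ hD => ⟨?_, ?_⟩, univ_card, lm_totient, lm_sigma,
    fun c D hc hD => expanding_pow hc hD⟩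
  · exact near_mult (P := fun n : ℕ => BoundSq Ψ θ η n) (h0 _) (few_boundSq h hΨ hη) hg hF hμ hD
  · exact near_orb (P := fun n : ℕ => BoundSq Ψ θ η n) (h0 _) (few_boundSq h hΨ hη) hg hF hμ hD

end Pool.Agent.Results.MP_af11aa_nt.NearMultiplicativeValues
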