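import Pool.Agent.P8H49.WT.One

/-!
# Cusp forms of weight `3/2`: the bound of the question for almost all integers, uniformly in the level, the character and the form

`N` is a level divisible by `4` (in the question `N = 24 p`), `χ` is any Dirichlet character modulo `N`, and `S_{3/2}(N, χ)` is the
space of cusp forms of weight `3/2` in the normalisation of Shimura (`IsCusp`). `‖f‖` is the Petersson norm, the integral
of `|f|^2 y^(3/2) dx dy / y^2` over a fundamental domain of `Γ₀(N)`, not divided by the index (`nrm N f` is its square).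

(1) There is an ABSOLUTE constant `C` such that for all `N`, all `χ`, all `X ≥ 1` and all choices of forms `f_n` in
`S_{3/2}(N, χ)` with `‖f_n‖ ≤ 1`, one form for each `n ≤ X`, the sum of `|a_{f_n}(n)|^2` over `n ≤ X` is at most
`C X^(3/2) (1 + log X)`. Equivalently, for an orthonormal basis `φ_1, …, φ_K` the double sum of `|a_{φ_k}(n)|^2` over `k ≤ K` and
`n ≤ X` has this bound (for each system with the property `Ortho`, which orthonormal systems have).

(2) There is ONE set `E` of integers, with at most `C X exp(- √(log X))` elements up to `X`, such that the statement of the question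
is true for all `n` outside of `E` and for ALL levels `N` divisible by `4`, all `χ`, all forms `f` in `S_{3/2}(N, χ)` and all
`ε > 0` at the same time: `|a_f(n)| ≤ C(f, ε) n^(1/4 + ε)`.

(3) An explicit form. Let `Ψ(N)` be a set of at most `N^κ` characters modulo `N` for each `N` (one character for each level if
`κ = 0`, all characters for `κ = 1`) and `θ > (1 + κ) / 2`. The constants depend only on `κ` and `θ`. For all `t > 0` and
for all but `C X (1 + log X) / t^2` integers `n ≤ X` the bound `|a_f(n)| ≤ ‖f‖ t N^θ n^(1/4)` holds for ALL levels `N`, all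
`χ ∈ Ψ(N)` and all `f ∈ S_{3/2}(N, χ)`; and for `η ≥ 0` the bound `|a_f(n)| ≤ ‖f‖ N^θ n^(1/4 + η)` holds in the same sense for all but
`C X^(max(1 - 2 η, 0)) (1 + log X)^2` integers `n ≤ X`.

(4) In the situation of (3) the bound for orthonormal systems follows: the sum of `|a_{φ_k}(n)|^2` over `k` is at
most `t^2 N^(2 θ) n^(1/2)`. For one character for each level (`κ = 0`, `2 θ = 1 + δ`) and `t = n^η` this is
`N^(1 + δ) n^(1/2 + 2 η)`, the shape of the bound `K n^(1/2 + 2 ε)` in the problem file which would improve Golubeva's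
theorem on ternary forms (the number `K` of the forms has the order `N` there, and the bound is needed for all squarefree `n`).

(5) The norm of a cusp form is finite, and a form of norm zero has the coefficients zero.

The exponent in (1) is sharp, already for a single form `f ≠ 0` the sum of `|a_f(n)|^2` over `n ≤ X` has the order `X^(3/2)`.

Proof of (1), without Kloosterman sums. Let `y = 1 / X` and `S = ∑ |a_{f_n}(n)|^2 e^(-4 π n y)`. The form
`F_x = ∑_n e^(-2 π n y) conj(a_{f_n}(n)) e(-n x) f_n` has the value with the mean `∫_0^1 F_x(x + i y) dx = S`, and by the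
orthogonality of the exponentials the mean of `‖F_x‖^2` over `x` is at most `S`. At each point `z` the value of a form is bounded
by its norm, `|f(z)|^2 y^(3/2) ≤ 200 Y ‖f‖^2`, where `Y` is the height of `z` modulo `SL₂(ℤ)`, uniformly in the level: the
discs of radius `Y / 2` about the points of the standard fundamental domain are covered at most `100 Y` times by their images
in `Γ₀(N) \ ℍ`. The mean of the height over the horocycle is at most `100 (1 + log X)`. The inequality of Cauchy and Schwarz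
gives `S ≤ C X^(3/2) (1 + log X)`.

Authors: helper1, helper16, helper26, helper49, helper65, helper76.
-/

set_option autoImplicit false

open UpperHalfPlane

namespace Pool.Agent.Results.MP_af11aa_nt.UniformInLevel

open Pool.Agent.P8H49.WT

theorem result :
    -- (1)
    (∃ C : ℝ, 0 < C ∧ ∀ (N : ℕ) (χ : DirichletCharacter ℂ N), 0 < N → 4 ∣ N →
      (∀ X : ℕ, 1 ≤ X → ∀ S ⊆ Finset.Icc 1 X, ∀ (f : ℕ → ℍ → ℂ) (a : ℕ → ℕ → ℂ),
        (∀ n ∈ S, IsCusp N χ (f n) (a n) ∧ nrm N (f n) ≤ 1) →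
          ∑ n ∈ S, ‖a n n‖ ^ 2 ≤ C * (X : ℝ) ^ (3 / 2 : ℝ) * (1 + Real.log X)) ∧
      ∀ (K : ℕ) (φ : Fin K → ℍ → ℂ) (b : Fin K → ℕ → ℂ), Ortho N χ φ b → ∀ X : ℕ, 1 ≤ X →
        ∑ n ∈ Finset.Icc 1 X, ∑ k, ‖b k n‖ ^ 2 ≤ C * (X : ℝ) ^ (3 / 2 : ℝ) * (1 + Real.log X)) ∧
    -- (2)
    (∃ (E : Set ℕ) (C : ℝ), 0 < C ∧
      (∀ X : ℕ, 1 ≤ X → ({n : ℕ | 1 ≤ n ∧ n ≤ X ∧ n ∈ E}.ncard : ℝ) ≤ C * X * Real.exp (-√(Real.log X))) ∧
      ∀ (N : ℕ) (χ : DirichletCharacter ℂ N), 0 < N → 4 ∣ N → ∀ (f : ℍ → ℂ) (a : ℕ → ℂ), IsCusp N χ f a →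
        ∀ ε : ℝ, 0 < ε → ∃ C' : ℝ, ∀ n : ℕ, 1 ≤ n → n ∉ E → ‖a n‖ ≤ C' * (n : ℝ) ^ (1 / 4 + ε)) ∧
    -- (3)
    (∀ κ θ : ℝ, 1 + κ < 2 * θ → ∃ C : ℝ, 0 < C ∧ ∀ Ψ : (N : ℕ) → Set (DirichletCharacter ℂ N),
      (∀ N : ℕ, 0 < N → ((Ψ N).ncard : ℝ) ≤ (N : ℝ) ^ κ) →
        (∀ X : ℕ, 1 ≤ X → ∀ t : ℝ, 0 < t →
          ({n : ℕ | 1 ≤ n ∧ n ≤ X ∧ ¬ Bound Ψ θ t n}.ncard : ℝ) ≤ C * X * (1 + Real.log X) / t ^ 2) ∧
        ∀ η : ℝ, 0 ≤ η → ∀ X : ℕ, 1 ≤ X →
          ({n : ℕ | 1 ≤ n ∧ n ≤ X ∧ ¬ Bound Ψ θ ((n : ℝ) ^ η) n}.ncard : ℝ) ≤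
            C * (X : ℝ) ^ (max (1 - 2 * η) 0) * (1 + Real.log X) ^ 2) ∧
    (∀ N : ℕ, 0 < N → ((Set.univ : Set (DirichletCharacter ℂ N)).ncard : ℝ) ≤ (N : ℝ) ^ (1 : ℝ)) ∧
    -- (4)
    (∀ (Ψ : (N : ℕ) → Set (DirichletCharacter ℂ N)) (θ t : ℝ) (n : ℕ), Bound Ψ θ t n → ∀ N : ℕ, 0 < N → 4 ∣ N →
      ∀ χ ∈ Ψ N, ∀ (K : ℕ) (φ : Fin K → ℍ → ℂ) (b : Fin K → ℕ → ℂ), Ortho N χ φ b →
        ∑ k, ‖b k n‖ ^ 2 ≤ (t * (N : ℝ) ^ θ * (n : ℝ) ^ (1 / 4 : ℝ)) ^ 2) ∧
    -- (5)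
    (∀ (N : ℕ) (χ : DirichletCharacter ℂ N) (f : ℍ → ℂ) (a : ℕ → ℂ), 0 < N → IsCusp N χ f a → nrm N f ≠ ⊤) ∧
    ∀ (N : ℕ) (χ : DirichletCharacter ℂ N) (f : ℍ → ℂ) (a : ℕ → ℂ), 0 < N → 4 ∣ N → IsCusp N χ f a →
      nrm N f = 0 → ∀ n, a n = 0 := by
  refine ⟨ortho_avg, one_set, fun κ θ h => ?_, univ_card,
    fun Ψ θ t n hB N hN h4 χ hχ K φ b h => ortho_bound hB hN h4 hχ h, fnn', zer'⟩
  obtain ⟨C, C0, hC⟩ := count_t avg' fnn' zer' h
  exact ⟨C, C0, fun Ψ hΨ => by simpa only [not_bound] using hC Ψ hΨ⟩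

end Pool.Agent.Results.MP_af11aa_nt.UniformInLevel
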